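import Mathlib

/-!
The periodic half space and its odd periodic perturbation: topology and smoothness.
-/

set_option autoImplicit false

namespace Pool.Agent.Lib.MP_b76267_pr

open Real Set
open scoped InnerProductSpace

lemma closure_sin_neg : closure {r : ℝ | sin (π * r) < 0} = {r : ℝ | sin (π * r) ≤ 0} := by
  apply Subset.antisymm
  · apply closure_minimal
    · intro r hr
      exact le_of_lt (show sin (π * r) < 0 from hr)
    · exact isClosed_le (by fun_prop) continuous_const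
  · intro r hr
    rcases lt_or_eq_of_le (show sin (π * r) ≤ 0 from hr) with h | h
    · exact subset_closure h
    · have hc : cos (π * r) ≠ 0 := by
        intro h0
        have := sin_sq_add_cos_sq (π * r)
        rw [h, h0] at this
        norm_num at this
      rw [Metric.mem_closure_iff]
      intro ε hε
      set δ : ℝ := min ε 1 / 2 with hδ
      have hδ0 : 0 < δ := by positivity
      have hδ1 : δ < 1 := by
        have := min_le_right ε 1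
        linarith
      have hδε : δ < ε := by
        have := min_le_left ε 1
        linarith
      have hs : 0 < sin (π * δ) :=
        sin_pos_of_pos_of_lt_pi (by positivity) (by nlinarith [pi_pos])
      rcases lt_or_gt_of_ne hc with h1 | h1
      · refine ⟨r + δ, ?_, ?_⟩
        · show sin (π * (r + δ)) < 0
          rw [mul_add, sin_add, h, zero_mul, zero_add]
          exact mul_neg_of_neg_of_pos h1 hs
        · rw [Real.dist_eq]
          simp [abs_of_pos hδ0, hδε]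
      · refine ⟨r - δ, ?_, ?_⟩
        · show sin (π * (r - δ)) < 0
          rw [mul_sub, sin_sub, h, zero_mul, zero_sub, neg_lt_zero]
          exact mul_pos h1 hs
        · rw [Real.dist_eq]
          simp [abs_of_pos hδ0, hδε]

lemma sin_pi_mul_eq_zero_iff (r : ℝ) : sin (π * r) = 0 ↔ ∃ k : ℤ, r = k := by
  rw [sin_eq_zero_iff]
  constructor
  · rintro ⟨k, hk⟩
    refine ⟨k, ?_⟩
    have := pi_pos
    have h : π * (r - k) = 0 := by linarith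
    rcases mul_eq_zero.1 h with h | h <;> linarith
  · rintro ⟨k, rfl⟩
    exact ⟨k, by ring⟩

variable {V : Type*} [NormedAddCommGroup V] [InnerProductSpace ℝ V]

/-- The periodic half space with normal vector `d`. -/
def hsp (d : V) : Set V := {x | 0 ≤ sin (π * ⟪d, x⟫_ℝ)}

lemma isOpenMap_inner {d : V} (hd : d ≠ 0) [FiniteDimensional ℝ V] :
    IsOpenMap (fun x : V => ⟪d, x⟫_ℝ) := by
  have : CompleteSpace V := FiniteDimensional.complete ℝ V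
  apply (innerSL ℝ d).isOpenMap
  intro r
  refine ⟨(r / ⟪d, d⟫_ℝ) • d, ?_⟩
  have : ⟪d, d⟫_ℝ ≠ 0 := inner_self_ne_zero.2 hd
  simp only [innerSL_apply_apply, inner_smul_right]
  field_simp

lemma isClosed_hsp (d : V) : IsClosed (hsp d) :=
  isClosed_le continuous_const (by fun_prop)

lemma closure_hsp_compl {d : V} (hd : d ≠ 0) [FiniteDimensional ℝ V] :
    closure (hsp d)ᶜ = {x | sin (π * ⟪d, x⟫_ℝ) ≤ 0} := by
  have h1 : (hsp d)ᶜ = (fun x : V => ⟪d, x⟫_ℝ) ⁻¹' {r : ℝ | sin (π * r) < 0} := by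
    ext x
    simp [hsp]
  rw [h1, ← (isOpenMap_inner hd).preimage_closure_eq_closure_preimage (by fun_prop),
    closure_sin_neg]
  rfl

lemma frontier_hsp {d : V} (hd : d ≠ 0) [FiniteDimensional ℝ V] :
    frontier (hsp d) = {x | ∃ k : ℤ, ⟪d, x⟫_ℝ = k} := by
  rw [frontier_eq_closure_inter_closure, (isClosed_hsp d).closure_eq, closure_hsp_compl hd]
  ext x
  simp only [hsp, mem_inter_iff, mem_ofPred_eq, ← sin_pi_mul_eq_zero_iff]
  constructor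
  · rintro ⟨h1, h2⟩
    exact le_antisymm h2 h1
  · intro h
    exact ⟨h.ge, h.le⟩

/-- The perturbation map. -/
noncomputable def pert (d w : V) (t : ℝ) (x : V) : V := x + (t * sin (2 * π * ⟪w, x⟫_ℝ)) • d

lemma abs_sin_sub_le (w x y : V) :
    |sin (2 * π * ⟪w, x⟫_ℝ) - sin (2 * π * ⟪w, y⟫_ℝ)| ≤ 2 * π * ‖w‖ * ‖x - y‖ := by
  refine (abs_sin_sub_sin_le _ _).trans ?_
  rw [← mul_sub, ← inner_sub_right, abs_mul, abs_of_pos (by positivity : 0 < 2 * π), mul_assoc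
    (2 * π)]
  exact mul_le_mul_of_nonneg_left (abs_real_inner_le_norm _ _) (by positivity)

lemma exists_homeo [FiniteDimensional ℝ V] (d w : V) (t : ℝ)
    (ht : |t| * (2 * π * ‖w‖) * ‖d‖ < 1) : ∃ Φ : V ≃ₜ V, ∀ x, Φ x = pert d w t x := by
  have : CompleteSpace V := FiniteDimensional.complete ℝ V
  set c : NNReal := ⟨|t| * (2 * π * ‖w‖) * ‖d‖, by positivity⟩ with hc
  have hA : ApproximatesLinearOn (pert d w t)
      ((ContinuousLinearEquiv.refl ℝ V : V ≃L[ℝ] V) : V →L[ℝ] V) univ c := by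
    intro x _ y _
    have e : pert d w t x - pert d w t y -
        ((ContinuousLinearEquiv.refl ℝ V : V ≃L[ℝ] V) : V →L[ℝ] V) (x - y)
        = (t * (sin (2 * π * ⟪w, x⟫_ℝ) - sin (2 * π * ⟪w, y⟫_ℝ))) • d := by
      simp only [pert, ContinuousLinearEquiv.coe_refl, ContinuousLinearMap.id_apply, mul_sub,
        sub_smul]
      abel
    rw [e, norm_smul, Real.norm_eq_abs, abs_mul]
    have := abs_sin_sub_le w x y
    show _ ≤ |t| * (2 * π * ‖w‖) * ‖d‖ * ‖x - y‖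
    calc |t| * |sin (2 * π * ⟪w, x⟫_ℝ) - sin (2 * π * ⟪w, y⟫_ℝ)| * ‖d‖
        ≤ |t| * (2 * π * ‖w‖ * ‖x - y‖) * ‖d‖ := by gcongr
      _ = _ := by ring
  have hcN : Subsingleton V ∨ c < ‖((ContinuousLinearEquiv.refl ℝ V : V ≃L[ℝ] V).symm :
      V →L[ℝ] V)‖₊⁻¹ := by
    rcases subsingleton_or_nontrivial V with h | h
    · exact Or.inl h
    · right
      have : ‖((ContinuousLinearEquiv.refl ℝ V : V ≃L[ℝ] V).symm : V →L[ℝ] V)‖₊ = 1 := by
        simp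
      rw [this, inv_one]
      exact_mod_cast ht
  exact ⟨hA.toHomeomorph _ hcN, fun x => rfl⟩

lemma pert_neg (d w : V) (t : ℝ) (x : V) : pert d w t (-x) = -pert d w t x := by
  simp only [pert, inner_neg_right, mul_neg, sin_neg, neg_smul, neg_add]

lemma pert_add (d w : V) (t : ℝ) (x v : V) (hv : ∃ j : ℤ, ⟪w, v⟫_ℝ = j) :
    pert d w t (x + v) = pert d w t x + v := by
  obtain ⟨j, hj⟩ := hv
  simp only [pert, inner_add_right, hj, mul_add]
  rw [show 2 * π * (j : ℝ) = j * (2 * π) by ring, sin_add_int_mul_two_pi]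
  abel

section
variable [FiniteDimensional ℝ V] {d w : V} {t : ℝ} {Φ : V ≃ₜ V}

lemma closure_compl_image (hd : d ≠ 0) :
    closure (Φ '' hsp d)ᶜ = Φ '' {x | sin (π * ⟪d, x⟫_ℝ) ≤ 0} := by
  rw [← Φ.image_compl, ← Φ.image_closure, closure_hsp_compl hd]

lemma neg_image (hd : d ≠ 0) (hΦ : ∀ x, Φ x = pert d w t x) :
    -(Φ '' hsp d) = closure (Φ '' hsp d)ᶜ := by
  rw [closure_compl_image hd]
  ext y
  simp only [mem_neg, mem_image, hsp, mem_ofPred_eq]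
  constructor
  · rintro ⟨x, hx, hxy⟩
    refine ⟨-x, ?_, ?_⟩
    · rw [inner_neg_right, mul_neg, sin_neg]
      linarith
    · rw [hΦ, pert_neg, ← hΦ, hxy, neg_neg]
  · rintro ⟨x, hx, hxy⟩
    refine ⟨-x, ?_, ?_⟩
    · rw [inner_neg_right, mul_neg, sin_neg]
      linarith
    · rw [hΦ, pert_neg, ← hΦ, hxy]

lemma add_image (hd : d ≠ 0) (hΦ : ∀ x, Φ x = pert d w t x) (v : V)
    (hv : ∃ j : ℤ, ⟪w, v⟫_ℝ = j) (hdv : ⟪d, v⟫_ℝ = 1 ∨ ⟪d, v⟫_ℝ = -1) :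
    (fun x => x + v) '' (Φ '' hsp d) = closure (Φ '' hsp d)ᶜ := by
  have hs : ∀ x : V, sin (π * ⟪d, x + v⟫_ℝ) = -sin (π * ⟪d, x⟫_ℝ) := by
    intro x
    rw [inner_add_right]
    rcases hdv with h | h
    · rw [h, mul_add, mul_one, sin_add_pi]
    · rw [h, mul_add, mul_neg, mul_one, ← sub_eq_add_neg, sin_sub_pi]
  rw [closure_compl_image hd]
  ext y
  simp only [mem_image, hsp, mem_ofPred_eq]
  constructor
  · rintro ⟨_, ⟨x, hx, rfl⟩, rfl⟩
    refine ⟨x + v, ?_, ?_⟩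
    · rw [hs]
      linarith
    · rw [hΦ, pert_add _ _ _ _ _ hv, hΦ]
  · rintro ⟨x, hx, rfl⟩
    refine ⟨Φ (x - v), ⟨x - v, ?_, rfl⟩, ?_⟩
    · have := hs (x - v)
      rw [sub_add_cancel] at this
      linarith
    · rw [hΦ, ← pert_add _ _ _ _ _ hv, sub_add_cancel, hΦ]

lemma frontier_image (hd : d ≠ 0) (hΦ : ∀ x, Φ x = pert d w t x) :
    frontier (Φ '' hsp d) = pert d w t '' {x | ∃ k : ℤ, ⟪d, x⟫_ℝ = k} := by
  rw [← Φ.image_frontier, frontier_hsp hd]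
  exact image_congr fun x _ => hΦ x

end

lemma smooth_graph {d w : V} {t : ℝ} (hd : d ≠ 0) (hdw : ⟪d, w⟫_ℝ = 1)
    (ht : |t| * ‖d‖ ^ 2 < 1 / 2) :
    ∀ p ∈ pert d w t '' {x | ∃ k : ℤ, ⟪d, x⟫_ℝ = k},
      ∃ (ν : V) (g : V → ℝ) (U : Set V), ‖ν‖ = 1 ∧ ContDiff ℝ (⊤ : ℕ∞) g ∧ IsOpen U ∧ p ∈ U ∧
        ∀ y ∈ U, (y ∈ pert d w t '' {x | ∃ k : ℤ, ⟪d, x⟫_ℝ = k} ↔
          ⟪y, ν⟫_ℝ = g (y - ⟪y, ν⟫_ℝ • ν)) := by
  have hn : 0 < ‖d‖ := norm_pos_iff.2 hd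
  have hdd : ⟪d, d⟫_ℝ = ‖d‖ ^ 2 := real_inner_self_eq_norm_sq d
  have hwd : ⟪w, d⟫_ℝ = 1 := by rw [real_inner_comm, hdw]
  have hin : ∀ x, ⟪d, pert d w t x⟫_ℝ = ⟪d, x⟫_ℝ + t * sin (2 * π * ⟪w, x⟫_ℝ) * ‖d‖ ^ 2 := by
    intro x
    rw [pert, inner_add_right, inner_smul_right, hdd]
  have hclose : ∀ x, |⟪d, pert d w t x⟫_ℝ - ⟪d, x⟫_ℝ| < 1 / 2 := by
    intro x
    rw [hin, add_sub_cancel_left, abs_mul, abs_mul, abs_of_pos (by positivity : 0 < ‖d‖ ^ 2)]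
    have := abs_sin_le_one (2 * π * ⟪w, x⟫_ℝ)
    calc |t| * |sin (2 * π * ⟪w, x⟫_ℝ)| * ‖d‖ ^ 2 ≤ |t| * 1 * ‖d‖ ^ 2 := by gcongr
      _ < 1 / 2 := by linarith
  rintro _ ⟨x0, ⟨k, hk⟩, rfl⟩
  refine ⟨‖d‖⁻¹ • d, fun u => ‖d‖ * (k / ‖d‖ ^ 2 + t * sin (2 * π * (k / ‖d‖ ^ 2 + ⟪w, u⟫_ℝ))),
    {y | |⟪d, y⟫_ℝ - k| < 1 / 2}, ?_, ?_, ?_, ?_, ?_⟩
  · rw [norm_smul, norm_inv, norm_norm, inv_mul_cancel₀ hn.ne']
  · have h1 : ContDiff ℝ (⊤ : ℕ∞) (fun u : V => ⟪w, u⟫_ℝ) := (innerSL ℝ w).contDiff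
    exact contDiff_const.mul (contDiff_const.add (contDiff_const.mul
      (Real.contDiff_sin.comp (contDiff_const.mul (contDiff_const.add h1)))))
  · exact isOpen_lt (by fun_prop) continuous_const
  · show |⟪d, pert d w t x0⟫_ℝ - k| < 1 / 2
    rw [← hk]
    exact hclose x0
  · intro y hy
    have hy' : |⟪d, y⟫_ℝ - k| < 1 / 2 := hy
    have hyν : ⟪y, ‖d‖⁻¹ • d⟫_ℝ = ‖d‖⁻¹ * ⟪d, y⟫_ℝ := by
      rw [inner_smul_right, real_inner_comm]
    have hwu : ⟪w, y - ⟪y, ‖d‖⁻¹ • d⟫_ℝ • ‖d‖⁻¹ • d⟫_ℝ = ⟪w, y⟫_ℝ - ⟪d, y⟫_ℝ / ‖d‖ ^ 2 := by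
      rw [hyν, inner_sub_right, inner_smul_right, inner_smul_right, hwd]
      field_simp
    constructor
    · rintro ⟨x, ⟨j, hj⟩, rfl⟩
      have h1 := hclose x
      rw [hj] at h1
      have hjk : j = k := by
        have h2 := abs_lt.1 h1
        have h3 := abs_lt.1 hy'
        have h4 : ((j - k : ℤ) : ℝ) < 1 := by
          push_cast
          linarith
        have h5 : (-1 : ℝ) < ((j - k : ℤ) : ℝ) := by
          push_cast
          linarith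
        have h6 : j - k < 1 := by exact_mod_cast h4
        have h7 : -1 < j - k := by exact_mod_cast h5
        omega
      subst hjk
      show _ = ‖d‖ * (j / ‖d‖ ^ 2 + t * sin (2 * π * (j / ‖d‖ ^ 2 + ⟪w, _⟫_ℝ)))
      rw [hwu, hyν]
      have e : (j : ℝ) / ‖d‖ ^ 2 + (⟪w, pert d w t x⟫_ℝ - ⟪d, pert d w t x⟫_ℝ / ‖d‖ ^ 2)
          = ⟪w, x⟫_ℝ := by
        rw [hin, hj, pert, inner_add_right, inner_smul_right, hwd]
        field_simp
        ring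
      rw [e, hin, hj]
      field_simp
    · intro h
      have h' : ⟪y, ‖d‖⁻¹ • d⟫_ℝ = ‖d‖ * (k / ‖d‖ ^ 2 + t * sin (2 * π * (k / ‖d‖ ^ 2 +
        ⟪w, y - ⟪y, ‖d‖⁻¹ • d⟫_ℝ • ‖d‖⁻¹ • d⟫_ℝ))) := h
      rw [hwu, hyν] at h'
      refine ⟨y + ((k - ⟪d, y⟫_ℝ) / ‖d‖ ^ 2) • d, ⟨k, ?_⟩, ?_⟩
      · rw [inner_add_right, inner_smul_right, hdd]
        field_simp
        ring
      · have e : ⟪w, y + ((k - ⟪d, y⟫_ℝ) / ‖d‖ ^ 2) • d⟫_ℝ
            = k / ‖d‖ ^ 2 + (⟪w, y⟫_ℝ - ⟪d, y⟫_ℝ / ‖d‖ ^ 2) := by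
          rw [inner_add_right, inner_smul_right, hwd]
          ring
        rw [pert, e, add_assoc, ← add_smul]
        generalize sin (2 * π * (k / ‖d‖ ^ 2 + (⟪w, y⟫_ℝ - ⟪d, y⟫_ℝ / ‖d‖ ^ 2))) = S at h' ⊢
        have : (k - ⟪d, y⟫_ℝ) / ‖d‖ ^ 2 + t * S = 0 := by
          field_simp at h' ⊢
          linarith
        rw [this, zero_smul, add_zero]

end Pool.Agent.Lib.MP_b76267_pr
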