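import Mathlib

/-!
Positivity of the sum of `k sin (2πk/N) exp (-k²/(2N))` over all integers `k`, for `N ≥ 3`,
through the functional equation of the Jacobi theta function.
-/

set_option autoImplicit false

namespace Pool.Agent.Lib.MP_b76267_pr

open Real Complex

lemma dual_sum_neg {N : ℝ} (hN : 3 ≤ N) {D : ℝ}
    (hD : HasSum (fun m : ℤ => ((m : ℝ) - 1 / N) * Real.exp (-(2 * π ^ 2 * N) * (m - 1 / N) ^ 2)) D) :
    D < 0 := by
  have hN0 : 0 < N := by linarith
  have hpi : (18 : ℝ) ≤ 2 * π ^ 2 := by nlinarith [Real.pi_gt_three]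
  set a : ℝ := 2 * π ^ 2 with ha
  set x : ℝ := Real.exp (-(a * (N - 2))) with hx
  have hx0 : 0 < x := Real.exp_pos _
  have hx1 : x * (1 + 18 * (N - 2)) ≤ 1 := by
    have h1 : 1 + a * (N - 2) ≤ Real.exp (a * (N - 2)) := by
      have := Real.add_one_le_exp (a * (N - 2))
      linarith
    have h2 : x * Real.exp (a * (N - 2)) = 1 := by
      rw [hx, ← Real.exp_add]
      simp
    have h3 : 18 * (N - 2) ≤ a * (N - 2) := by nlinarith
    nlinarith
  have hx19 : x ≤ 1 / 19 := by nlinarith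
  have hNx : N * x ≤ 3 / 19 := by nlinarith
  have hxn : ‖x‖ < 1 := by
    rw [Real.norm_eq_abs, abs_of_pos hx0]
    linarith
  set e : ℝ := Real.exp (-(a / N)) with he
  have he0 : 0 < e := Real.exp_pos _
  have hg : HasSum (fun n : ℕ => ((n : ℝ) * x ^ n - if n = 0 then 1 / N else 0) * e)
      ((x / (1 - x) ^ 2 - 1 / N) * e) :=
    ((hasSum_coe_mul_geometric_of_norm_lt_one hxn).sub (hasSum_ite_eq 0 (1 / N))).mul_right e
  have hle := hasSum_le (fun n => ?_) hD.nat_add_neg_add_one hg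
  · refine lt_of_le_of_lt hle (mul_neg_of_neg_of_pos ?_ he0)
    rw [sub_neg, div_lt_div_iff₀ (by nlinarith) hN0]
    nlinarith
  · have hz : 0 < 1 / N := by positivity
    have hneg : (((-((n : ℤ) + 1) : ℤ) : ℝ) - 1 / N) *
        Real.exp (-(a * N) * (((-((n : ℤ) + 1) : ℤ) : ℝ) - 1 / N) ^ 2) ≤ 0 := by
      apply mul_nonpos_of_nonpos_of_nonneg _ (Real.exp_pos _).le
      push_cast
      have : (0 : ℝ) ≤ n := Nat.cast_nonneg n
      linarith
    have hexp : Real.exp (-(a * N) * (((n : ℤ) : ℝ) - 1 / N) ^ 2)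
        = Real.exp (-(a * (n * (N * n - 2)))) * e := by
      rw [he, ← Real.exp_add]
      congr 1
      push_cast
      field_simp
      ring
    rw [hexp]
    rcases Nat.eq_zero_or_pos n with rfl | hn
    · simp only [if_true] at hneg ⊢
      simp only [Nat.cast_zero, Int.cast_zero, zero_mul, mul_zero, neg_zero, Real.exp_zero,
        zero_sub, one_mul] at hneg ⊢
      linarith
    · rw [if_neg hn.ne']
      have hn1 : (1 : ℝ) ≤ n := by exact_mod_cast hn
      have h1 : Real.exp (-(a * (n * (N * n - 2)))) ≤ x ^ n := by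
        rw [hx, ← Real.exp_nat_mul]
        apply Real.exp_le_exp.2
        have : N ≤ N * n := by nlinarith
        have h2 : (n : ℝ) * (N - 2) ≤ n * (N * n - 2) := by nlinarith
        nlinarith
      have h2 : (((n : ℤ) : ℝ) - 1 / N) * (Real.exp (-(a * (n * (N * n - 2)))) * e)
          ≤ ((n : ℝ) * x ^ n - 0) * e := by
        rw [← mul_assoc, sub_zero]
        apply mul_le_mul_of_nonneg_right _ he0.le
        push_cast
        apply mul_le_mul (by linarith) h1 (Real.exp_pos _).le (by linarith)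
      linarith

theorem theta_pos {N : ℝ} (hN : 3 ≤ N) :
    0 < ∑' k : ℤ, (k : ℝ) * Real.sin (2 * π * (k / N)) * Real.exp (-((k : ℝ) ^ 2 / (2 * N))) := by
  have hN0 : 0 < N := by linarith
  have hpi := Real.pi_pos
  set s : ℝ := 1 / (2 * π * N) with hs
  have hs0 : 0 < s := by positivity
  set z : ℂ := ((1 / N : ℝ) : ℂ) with hz
  set τ : ℂ := I * (s : ℂ) with hτ
  have hτim : 0 < τ.im := by simp [hτ, hs0]
  have hτim' : 0 < (-1 / τ).im := by
    have : -1 / τ = I * ((1 / s : ℝ) : ℂ) := by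
      have hs' : (s : ℂ) ≠ 0 := by exact_mod_cast hs0.ne'
      rw [hτ]
      push_cast
      field_simp
      simp
    rw [this]
    simp [hs0]
  have hN' : (N : ℂ) ≠ 0 := by exact_mod_cast hN0.ne'
  have hpi' : (π : ℂ) ≠ 0 := by exact_mod_cast hpi.ne'
  -- left side
  have h1 := Complex.hasSum_re (hasSum_jacobiTheta₂'_term z hτim)
  have h1' : ∀ k : ℤ, (jacobiTheta₂'_term k z τ).re =
      -(2 * π) * ((k : ℝ) * Real.sin (2 * π * (k / N)) * Real.exp (-((k : ℝ) ^ 2 / (2 * N)))) := by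
    intro k
    have : jacobiTheta₂'_term k z τ = ((2 * π * k * Real.exp (-((k : ℝ) ^ 2 / (2 * N))) : ℝ) : ℂ) *
        (I * cexp (((2 * π * (k / N) : ℝ) : ℂ) * I)) := by
      rw [jacobiTheta₂'_term, jacobiTheta₂_term, Complex.exp_add]
      have e1 : 2 * π * I * k * z = ((2 * π * (k / N) : ℝ) : ℂ) * I := by
        rw [hz]
        push_cast
        ring
      have e2 : π * I * (k : ℂ) ^ 2 * τ = ((-((k : ℝ) ^ 2 / (2 * N)) : ℝ) : ℂ) := by
        rw [hτ, hs]
        push_cast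
        field_simp
        simp
      rw [e1, e2, ← Complex.ofReal_exp]
      push_cast
      ring
    rw [this, Complex.re_ofReal_mul, Complex.I_mul_re, Complex.exp_ofReal_mul_I_im]
    ring
  simp_rw [h1'] at h1
  -- right side
  have h2 := ((hasSum_jacobiTheta₂'_term (z / τ) hτim').sub
    ((hasSum_jacobiTheta₂_term (z / τ) hτim').mul_left (2 * π * I * z))).mul_left
    (1 / (-I * τ) ^ (1 / 2 : ℂ) * cexp (-π * I * z ^ 2 / τ) / τ)
  rw [← jacobiTheta₂'_functional_equation] at h2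
  have hpow : (-I * τ) ^ (1 / 2 : ℂ) = ((s ^ (1 / 2 : ℝ) : ℝ) : ℂ) := by
    have : -I * τ = (s : ℂ) := by
      rw [hτ, ← mul_assoc, neg_mul, I_mul_I]
      simp
    rw [this, Complex.ofReal_cpow hs0.le]
    push_cast
    rfl
  set r : ℝ := s ^ (1 / 2 : ℝ) with hr
  have hr0 : 0 < r := Real.rpow_pos_of_pos hs0 _
  have hr' : (r : ℂ) ≠ 0 := by exact_mod_cast hr0.ne'
  have h2' : ∀ m : ℤ, 1 / (-I * τ) ^ (1 / 2 : ℂ) * cexp (-π * I * z ^ 2 / τ) / τ *
      (jacobiTheta₂'_term m (z / τ) (-1 / τ) - 2 * π * I * z * jacobiTheta₂_term m (z / τ) (-1 / τ))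
      = (((4 * π ^ 2 * N / r) * (((m : ℝ) - 1 / N) *
        Real.exp (-(2 * π ^ 2 * N) * (m - 1 / N) ^ 2)) : ℝ) : ℂ) := by
    intro m
    rw [hpow, jacobiTheta₂'_term, jacobiTheta₂_term]
    have e1 : ((-(2 * π ^ 2 * N) * (m - 1 / N) ^ 2 : ℝ) : ℂ) =
        -π * I * z ^ 2 / τ + (2 * π * I * m * (z / τ) + π * I * m ^ 2 * (-1 / τ)) := by
      rw [hτ, hz, hs]
      push_cast
      field_simp
      ring
    rw [Complex.ofReal_mul, Complex.ofReal_mul, Complex.ofReal_exp, e1, Complex.exp_add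
      (-π * I * z ^ 2 / τ)]
    generalize cexp (-π * I * z ^ 2 / τ) = A
    generalize cexp (2 * π * I * m * (z / τ) + π * I * m ^ 2 * (-1 / τ)) = B
    rw [hτ, hz, hs]
    push_cast
    field_simp
    ring
  simp_rw [h2'] at h2
  have h3 := Complex.hasSum_re h2
  simp only [Complex.ofReal_re] at h3
  have hc : 0 < 4 * π ^ 2 * N / r := by positivity
  have h4 := h3.mul_left (4 * π ^ 2 * N / r)⁻¹
  simp only [inv_mul_cancel_left₀ hc.ne'] at h4
  have h5 := dual_sum_neg hN h4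
  have h6 : (jacobiTheta₂' z τ).re < 0 := by
    by_contra hcon
    rw [not_lt] at hcon
    have := mul_nonneg (inv_pos.2 hc).le hcon
    linarith
  have h7 := h1.mul_left (-(2 * π))⁻¹
  have h8 : -(2 * π) ≠ 0 := by
    have : 0 < 2 * π := by positivity
    linarith
  simp only [inv_mul_cancel_left₀ h8] at h7
  rw [h7.tsum_eq]
  apply mul_pos_of_neg_of_neg _ h6
  rw [inv_lt_zero]
  linarith

end Pool.Agent.Lib.MP_b76267_pr
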