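import Mathlib
import Pool.Agent.Lib.MP_b76267_pr.Theta
import Pool.Agent.Lib.MP_b76267_pr.Geom

/-!
The Gaussian area of the perturbed boundary is smaller than that of the periodic half space.
-/

set_option autoImplicit false

namespace Pool.Agent.Lib.MP_b76267_pr

open Real Set MeasureTheory
open scoped InnerProductSpace ENNReal NNReal

lemma lintegral_range_le {X Y : Type*} [EMetricSpace X] [MeasurableSpace X] [BorelSpace X]
    [EMetricSpace Y] [MeasurableSpace Y] [BorelSpace Y] {L : ℝ≥0} {f : X → Y}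
    (hf : LipschitzWith L f) (m : ℕ) {g : Y → ℝ≥0∞} (hg : Measurable g) :
    ∫⁻ y in range f, g y ∂μHE[m] ≤ (L : ℝ≥0∞) ^ m * ∫⁻ x, g (f x) ∂μHE[m] := by
  have hfm : Measurable f := hf.continuous.measurable
  have hle : (μHE[m] : Measure Y).restrict (range f) ≤
      ((L : ℝ≥0∞) ^ m) • (μHE[m] : Measure X).map f := by
    rw [Measure.le_iff]
    intro S hS
    rw [Measure.restrict_apply hS, Measure.smul_apply, Measure.map_apply hfm hS,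
      ← image_preimage_eq_inter_range]
    simp only [Measure.euclideanHausdorffMeasure_def, Measure.smul_apply]
    have := hf.hausdorffMeasure_image_le (d := (m : ℝ)) (by positivity) (f ⁻¹' S)
    rw [ENNReal.rpow_natCast] at this
    simp only [ENNReal.smul_def, smul_eq_mul]
    rw [mul_left_comm]
    gcongr
  calc ∫⁻ y in range f, g y ∂μHE[m]
      ≤ ∫⁻ y, g y ∂(((L : ℝ≥0∞) ^ m) • (μHE[m] : Measure X).map f) := lintegral_mono' hle le_rfl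
    _ = _ := by rw [lintegral_smul_measure, lintegral_map hg hfm, smul_eq_mul]

lemma lintegral_range_eq {X Y : Type*} [EMetricSpace X] [MeasurableSpace X] [BorelSpace X]
    [EMetricSpace Y] [MeasurableSpace Y] [BorelSpace Y] {f : X → Y}
    (hf : Isometry f) (m : ℕ) {g : Y → ℝ≥0∞} (hg : Measurable g) :
    ∫⁻ y in range f, g y ∂μHE[m] = ∫⁻ x, g (f x) ∂μHE[m] := by
  rw [← hf.map_euclideanHausdorffMeasure, lintegral_map hg hf.continuous.measurable]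

lemma gauss_sin {U : Type*} [NormedAddCommGroup U] [InnerProductSpace ℝ U] [FiniteDimensional ℝ U]
    [MeasurableSpace U] [BorelSpace U] (w : U) :
    ∃ K : ℝ, 0 < K ∧ ∀ θ : ℝ,
      Integrable (fun u : U => sin (2 * π * (θ + ⟪w, u⟫_ℝ)) * exp (-‖u‖ ^ 2 / 2)) ∧
      ∫ u : U, sin (2 * π * (θ + ⟪w, u⟫_ℝ)) * exp (-‖u‖ ^ 2 / 2) = sin (2 * π * θ) * K := by
  have hb : 0 < (1 / 2 : ℂ).re := by norm_num
  have h1 := GaussianFourier.integrable_cexp_neg_mul_sq_norm_add hb (2 * π * Complex.I) w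
  have h2 := GaussianFourier.integral_cexp_neg_mul_sq_norm_add hb (2 * π * Complex.I) w
  refine ⟨(2 * π) ^ (Module.finrank ℝ U / 2 : ℝ) * exp (-(2 * π ^ 2 * ‖w‖ ^ 2)), by positivity,
    fun θ => ?_⟩
  have h3 : ((π : ℂ) / (1 / 2)) ^ (Module.finrank ℝ U / 2 : ℂ) *
      Complex.exp ((2 * π * Complex.I) ^ 2 * (‖w‖ : ℂ) ^ 2 / (4 * (1 / 2))) =
      (((2 * π) ^ (Module.finrank ℝ U / 2 : ℝ) * exp (-(2 * π ^ 2 * ‖w‖ ^ 2)) : ℝ) : ℂ) := by
    rw [Complex.ofReal_mul, Complex.ofReal_cpow (by positivity), Complex.ofReal_exp]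
    congr 2
    · push_cast
      ring
    · push_cast
      ring
    · push_cast
      rw [mul_pow, Complex.I_sq]
      ring
  rw [h3] at h2
  have h4 : ∀ u : U, sin (2 * π * (θ + ⟪w, u⟫_ℝ)) * exp (-‖u‖ ^ 2 / 2) =
      RCLike.im (Complex.exp (((2 * π * θ : ℝ) : ℂ) * Complex.I) *
        Complex.exp (-(1 / 2 : ℂ) * (‖u‖ : ℂ) ^ 2 + 2 * π * Complex.I * (⟪w, u⟫_ℝ : ℂ))) := by
    intro u
    rw [← Complex.exp_add]
    have : ((2 * π * θ : ℝ) : ℂ) * Complex.I +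
        (-(1 / 2 : ℂ) * (‖u‖ : ℂ) ^ 2 + 2 * π * Complex.I * (⟪w, u⟫_ℝ : ℂ)) =
        ((-‖u‖ ^ 2 / 2 : ℝ) : ℂ) + ((2 * π * (θ + ⟪w, u⟫_ℝ) : ℝ) : ℂ) * Complex.I := by
      push_cast
      ring
    rw [this, Complex.exp_add, ← Complex.ofReal_exp]
    show _ = Complex.im _
    rw [Complex.im_ofReal_mul, Complex.exp_ofReal_mul_I_im, mul_comm]
  simp_rw [h4]
  have h5 := h1.const_mul (Complex.exp (((2 * π * θ : ℝ) : ℂ) * Complex.I))
  refine ⟨h5.im, ?_⟩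
  rw [integral_im h5, integral_const_mul, h2]
  show Complex.im _ = _
  rw [Complex.im_mul_ofReal, Complex.exp_ofReal_mul_I_im]

lemma gauss_one (U : Type*) [NormedAddCommGroup U] [InnerProductSpace ℝ U] [FiniteDimensional ℝ U]
    [MeasurableSpace U] [BorelSpace U] :
    Integrable (fun u : U => exp (-‖u‖ ^ 2 / 2)) ∧ 0 < ∫ u : U, exp (-‖u‖ ^ 2 / 2) := by
  obtain ⟨K, hK, h⟩ := gauss_sin (0 : U)
  have h1 := h (1 / 4)
  have e : 2 * π * (1 / 4) = π / 2 := by ring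
  simp only [inner_zero_left, add_zero, e, sin_pi_div_two, one_mul] at h1
  exact ⟨h1.1, h1.2 ▸ hK⟩

lemma exp_le_quad (y : ℝ) : exp y ≤ 1 + y + y ^ 2 * exp |y| := by
  have h := Complex.norm_exp_sub_sum_le_norm_mul_exp (y : ℂ) 2
  have e : Complex.exp y - ∑ m ∈ Finset.range 2, (y : ℂ) ^ m / (m.factorial : ℂ)
      = ((exp y - (1 + y) : ℝ) : ℂ) := by
    simp [Finset.sum_range_succ]
  rw [e, Complex.norm_real, Complex.norm_real, Real.norm_eq_abs, Real.norm_eq_abs, sq_abs] at h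
  have := le_abs_self (exp y - (1 + y))
  linarith

lemma summable_aux {N : ℝ} (hN : 0 < N) (j : ℕ) :
    Summable (fun k : ℤ => |(k : ℝ)| ^ j * exp |(k : ℝ)| * exp (-((k : ℝ) ^ 2 / (2 * N)))) := by
  have h := summable_pow_mul_jacobiTheta₂_term_bound (1 / (2 * π)) (T := 1 / (2 * π * N))
    (by positivity) j
  refine h.congr fun k => ?_
  rw [mul_assoc (|(k : ℝ)| ^ j), ← exp_add]
  push_cast
  congr 2
  field_simp
  ring

lemma exists_small {A B C D δ : ℝ} (m : ℕ) (hB : 0 < B) (hδ : 0 < δ) :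
    ∃ t : ℝ, 0 < t ∧ t < δ ∧ (1 + C * t ^ 2) ^ m * (A - t * B + t ^ 2 * D) < A := by
  have h1 : HasDerivAt (fun t : ℝ => (1 + C * t ^ 2) ^ m * (A - t * B + t ^ 2 * D)) (-B) 0 := by
    have h2 : HasDerivAt (fun t : ℝ => 1 + C * t ^ 2) 0 0 := by
      simpa using ((hasDerivAt_pow 2 (0 : ℝ)).const_mul C).const_add 1
    have h3 : HasDerivAt (fun t : ℝ => A - t * B + t ^ 2 * D) (-B) 0 := by
      have := (((hasDerivAt_id (0 : ℝ)).mul_const B).const_sub A).fun_add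
        ((hasDerivAt_pow 2 (0 : ℝ)).mul_const D)
      simpa using this
    have := (h2.fun_pow m).fun_mul h3
    simpa using this
  have h4 := h1.tendsto_slope_zero_right
  have h5 := h4.eventually (gt_mem_nhds (show -B < 0 by linarith))
  have h6 : ∀ᶠ t in nhdsWithin (0 : ℝ) (Ioi 0), t < δ :=
    nhdsWithin_le_nhds (gt_mem_nhds hδ)
  obtain ⟨t, ⟨ht1, ht2⟩, ht3⟩ := ((h5.and h6).and self_mem_nhdsWithin).exists
  have ht0 : 0 < t := ht3
  refine ⟨t, ht0, ht2, ?_⟩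
  simp only [zero_add, smul_eq_mul] at ht1
  have h7 := (mul_neg_iff.1 ht1).resolve_right (fun h => absurd h.1 (not_lt.2 (inv_pos.2 ht0).le))
  have h8 := h7.2
  simp at h8
  linarith

variable {V : Type*} [NormedAddCommGroup V] [InnerProductSpace ℝ V]

/-- Parametrisation of the `k`-th sheet of the perturbed boundary. -/
noncomputable def sheet (d w : V) (t : ℝ) (k : ℤ) (u : (ℝ ∙ d)ᗮ) : V :=
  (k / ‖d‖ ^ 2 + t * sin (2 * π * (k / ‖d‖ ^ 2 + ⟪w, (u : V)⟫_ℝ))) • d + u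

lemma inner_d (d : V) (u : (ℝ ∙ d)ᗮ) : ⟪d, (u : V)⟫_ℝ = 0 :=
  Submodule.mem_orthogonal_singleton_iff_inner_right.1 u.2

lemma norm_sq_add (d : V) (a : ℝ) (u : (ℝ ∙ d)ᗮ) :
    ‖a • d + u‖ ^ 2 = a ^ 2 * ‖d‖ ^ 2 + ‖u‖ ^ 2 := by
  rw [norm_add_sq_real, inner_smul_left, inner_d, norm_smul, mul_pow, Real.norm_eq_abs, sq_abs]
  simp

lemma image_eq_iUnion {d w : V} (t : ℝ) (hd : d ≠ 0) (hdw : ⟪d, w⟫_ℝ = 1) :
    pert d w t '' {x | ∃ k : ℤ, ⟪d, x⟫_ℝ = k} = ⋃ k : ℤ, range (sheet d w t k) := by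
  have hn : 0 < ‖d‖ := norm_pos_iff.2 hd
  have hdd : ⟪d, d⟫_ℝ = ‖d‖ ^ 2 := real_inner_self_eq_norm_sq d
  have hwd : ⟪w, d⟫_ℝ = 1 := by rw [real_inner_comm, hdw]
  ext y
  simp only [mem_image, mem_iUnion, mem_range, mem_ofPred_eq]
  constructor
  · rintro ⟨x, ⟨k, hk⟩, rfl⟩
    refine ⟨k, ⟨x - (k / ‖d‖ ^ 2) • d, ?_⟩, ?_⟩
    · rw [Submodule.mem_orthogonal_singleton_iff_inner_right, inner_sub_right, inner_smul_right,
        hdd, hk]
      field_simp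
      ring
    · simp only [sheet, pert, inner_sub_right, inner_smul_right, hwd, mul_one, add_sub_cancel,
        add_smul]
      abel
  · rintro ⟨k, u, rfl⟩
    refine ⟨(k / ‖d‖ ^ 2) • d + u, ⟨k, ?_⟩, ?_⟩
    · rw [inner_add_right, inner_smul_right, hdd, inner_d]
      field_simp
      ring
    · simp only [sheet, pert, inner_add_right, inner_smul_right, hwd, mul_one, add_smul]
      abel

lemma dist_sheet_sq (d w : V) (t : ℝ) (k : ℤ) (u v : (ℝ ∙ d)ᗮ) :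
    ‖sheet d w t k u - sheet d w t k v‖ ^ 2 =
      (t * (sin (2 * π * (k / ‖d‖ ^ 2 + ⟪w, (u : V)⟫_ℝ)) -
        sin (2 * π * (k / ‖d‖ ^ 2 + ⟪w, (v : V)⟫_ℝ)))) ^ 2 * ‖d‖ ^ 2 + ‖u - v‖ ^ 2 := by
  rw [← norm_sq_add]
  congr 2
  simp only [sheet, add_smul, mul_sub, sub_smul, Submodule.coe_sub]
  abel

lemma isometry_sheet (d w : V) (k : ℤ) : Isometry (sheet d w 0 k) := by
  apply Isometry.of_dist_eq
  intro u v
  rw [dist_eq_norm, dist_eq_norm]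
  have := dist_sheet_sq d w 0 k u v
  simp only [zero_mul, ne_eq, OfNat.ofNat_ne_zero, not_false_eq_true, zero_pow, zero_add] at this
  exact (pow_left_inj₀ (norm_nonneg _) (norm_nonneg _) two_ne_zero).1 this

lemma lipschitz_sheet (d w : V) (t : ℝ) (k : ℤ) :
    LipschitzWith ⟨1 + (4 * π ^ 2 * ‖w‖ ^ 2 * ‖d‖ ^ 2) * t ^ 2, by positivity⟩
      (sheet d w t k) := by
  apply LipschitzWith.of_dist_le_mul
  intro u v
  rw [dist_eq_norm, dist_eq_norm]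
  show _ ≤ (1 + (4 * π ^ 2 * ‖w‖ ^ 2 * ‖d‖ ^ 2) * t ^ 2) * ‖u - v‖
  apply le_of_sq_le_sq _ (by positivity)
  rw [dist_sheet_sq]
  have h1 : |sin (2 * π * (k / ‖d‖ ^ 2 + ⟪w, (u : V)⟫_ℝ)) -
      sin (2 * π * (k / ‖d‖ ^ 2 + ⟪w, (v : V)⟫_ℝ))| ≤ 2 * π * ‖w‖ * ‖u - v‖ := by
    refine (abs_sin_sub_sin_le _ _).trans ?_
    rw [← mul_sub, add_sub_add_left_eq_sub, ← inner_sub_right, abs_mul,
      abs_of_pos (by positivity : 0 < 2 * π), mul_assoc (2 * π)]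
    exact mul_le_mul_of_nonneg_left (abs_real_inner_le_norm _ _) (by positivity)
  have h2 := pow_le_pow_left₀ (abs_nonneg _) h1 2
  rw [sq_abs] at h2
  generalize sin (2 * π * (k / ‖d‖ ^ 2 + ⟪w, (u : V)⟫_ℝ)) -
      sin (2 * π * (k / ‖d‖ ^ 2 + ⟪w, (v : V)⟫_ℝ)) = S at h2 ⊢
  set y := (4 * π ^ 2 * ‖w‖ ^ 2 * ‖d‖ ^ 2) * t ^ 2 with hy
  have hy0 : 0 ≤ y := by positivity
  have h3 : (t * S) ^ 2 * ‖d‖ ^ 2 ≤ y * ‖u - v‖ ^ 2 := by
    calc (t * S) ^ 2 * ‖d‖ ^ 2 = t ^ 2 * ‖d‖ ^ 2 * S ^ 2 := by ring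
      _ ≤ t ^ 2 * ‖d‖ ^ 2 * (2 * π * ‖w‖ * ‖u - v‖) ^ 2 := by gcongr
      _ = _ := by rw [hy]; ring
  have h4 : 0 ≤ ‖u - v‖ ^ 2 := by positivity
  nlinarith [mul_nonneg hy0 h4, mul_nonneg (mul_nonneg hy0 hy0) h4]

lemma exp_sheet_le {d : V} (w : V) {t : ℝ} (hd : d ≠ 0) (ht : |t| ≤ 1) (k : ℤ) (u : (ℝ ∙ d)ᗮ) :
    exp (-‖sheet d w t k u‖ ^ 2 / 2) ≤ exp (-((k : ℝ) ^ 2 / (2 * ‖d‖ ^ 2))) *
      (exp (-‖u‖ ^ 2 / 2) - t * k * (sin (2 * π * (k / ‖d‖ ^ 2 + ⟪w, (u : V)⟫_ℝ)) *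
        exp (-‖u‖ ^ 2 / 2)) + t ^ 2 * (|(k : ℝ)| ^ 2 * exp |(k : ℝ)|) * exp (-‖u‖ ^ 2 / 2)) := by
  have hn : 0 < ‖d‖ := norm_pos_iff.2 hd
  rw [sheet, norm_sq_add]
  have hS := abs_sin_le_one (2 * π * (k / ‖d‖ ^ 2 + ⟪w, (u : V)⟫_ℝ))
  generalize sin (2 * π * (k / ‖d‖ ^ 2 + ⟪w, (u : V)⟫_ℝ)) = S at hS ⊢
  have h1 : -(((k : ℝ) / ‖d‖ ^ 2 + t * S) ^ 2 * ‖d‖ ^ 2 + ‖u‖ ^ 2) / 2 =
      -((k : ℝ) ^ 2 / (2 * ‖d‖ ^ 2)) + (-‖u‖ ^ 2 / 2 + (-(t * k * S) - (t * S) ^ 2 * ‖d‖ ^ 2 / 2)) := by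
    field_simp
    ring
  rw [h1, exp_add, exp_add]
  apply mul_le_mul_of_nonneg_left _ (exp_pos _).le
  have h2 : exp (-(t * k * S) - (t * S) ^ 2 * ‖d‖ ^ 2 / 2) ≤ exp (-(t * k * S)) := by
    apply exp_le_exp.2
    have : 0 ≤ (t * S) ^ 2 * ‖d‖ ^ 2 / 2 := by positivity
    linarith
  have h3 := exp_le_quad (-(t * k * S))
  have h4 : |-(t * k * S)| ≤ |t| * |(k : ℝ)| := by
    rw [abs_neg, abs_mul, abs_mul]
    calc |t| * |(k : ℝ)| * |S| ≤ |t| * |(k : ℝ)| * 1 := by gcongr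
      _ = _ := mul_one _
  have h5 : |-(t * k * S)| ≤ |(k : ℝ)| := by
    refine h4.trans ?_
    calc |t| * |(k : ℝ)| ≤ 1 * |(k : ℝ)| := by gcongr
      _ = _ := one_mul _
  have h6 : (-(t * k * S)) ^ 2 * exp |-(t * k * S)| ≤ t ^ 2 * (|(k : ℝ)| ^ 2 * exp |(k : ℝ)|) := by
    rw [← sq_abs (-(t * k * S)), ← mul_assoc, ← sq_abs t, ← mul_pow]
    gcongr
  have h7 := exp_pos (-‖u‖ ^ 2 / 2)
  calc exp (-‖u‖ ^ 2 / 2) * exp (-(t * k * S) - (t * S) ^ 2 * ‖d‖ ^ 2 / 2)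
      ≤ exp (-‖u‖ ^ 2 / 2) * (1 + -(t * k * S) + t ^ 2 * (|(k : ℝ)| ^ 2 * exp |(k : ℝ)|)) := by
        apply mul_le_mul_of_nonneg_left _ h7.le
        linarith
    _ = _ := by ring

lemma exp_sheet_zero {d : V} (w : V) (hd : d ≠ 0) (k : ℤ) (u : (ℝ ∙ d)ᗮ) :
    exp (-‖sheet d w 0 k u‖ ^ 2 / 2) = exp (-((k : ℝ) ^ 2 / (2 * ‖d‖ ^ 2))) *
      exp (-‖u‖ ^ 2 / 2) := by
  have hn : 0 < ‖d‖ := norm_pos_iff.2 hd
  rw [sheet, norm_sq_add, ← exp_add]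
  congr 1
  field_simp
  ring

theorem area_lt [FiniteDimensional ℝ V] [MeasurableSpace V] [BorelSpace V] {d w : V}
    (hd3 : 3 ≤ ‖d‖ ^ 2) (hdw : ⟪d, w⟫_ℝ = 1) {c : ℝ} (hc : 0 < c) {δ : ℝ} (hδ : 0 < δ) {m : ℕ}
    (hm : Module.finrank ℝ V = m + 1) :
    ∃ t : ℝ, 0 < t ∧ t < δ ∧
      ∫⁻ x in pert d w t '' {x | ∃ k : ℤ, ⟪d, x⟫_ℝ = k},
          ENNReal.ofReal (c * exp (-‖x‖ ^ 2 / 2)) ∂μHE[m] <
        ∫⁻ x in {x | ∃ k : ℤ, ⟪d, x⟫_ℝ = k}, ENNReal.ofReal (c * exp (-‖x‖ ^ 2 / 2)) ∂μHE[m] := by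
  have hd : d ≠ 0 := by
    rintro rfl
    norm_num at hd3
  have hN : 0 < ‖d‖ ^ 2 := by linarith
  have hfact : Fact (Module.finrank ℝ V = m + 1) := ⟨hm⟩
  have hU : Module.finrank ℝ (ℝ ∙ d)ᗮ = m := Submodule.finrank_orthogonal_span_singleton hd
  have hvol : (μHE[m] : Measure (ℝ ∙ d)ᗮ) = volume := by
    rw [← hU]
    exact InnerProductSpace.euclideanHausdorffMeasure_eq_volume
  have hg : Measurable fun x : V => ENNReal.ofReal (c * exp (-‖x‖ ^ 2 / 2)) := by fun_prop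
  obtain ⟨hG1, hG⟩ := gauss_one (ℝ ∙ d)ᗮ
  set G := ∫ u : (ℝ ∙ d)ᗮ, exp (-‖u‖ ^ 2 / 2) with hGdef
  obtain ⟨K, hK, hKs⟩ := gauss_sin ((ℝ ∙ d)ᗮ.orthogonalProjectionOnto w)
  simp only [Submodule.inner_orthogonalProjectionOnto_eq_of_mem_right] at hKs
  set N := ‖d‖ ^ 2 with hNdef
  have hs2 := summable_aux hN 2
  have hs0 : Summable fun k : ℤ => exp (-((k : ℝ) ^ 2 / (2 * N))) := by
    refine Summable.of_nonneg_of_le (fun k => (exp_pos _).le) (fun k => ?_) (summable_aux hN 0)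
    rw [pow_zero, one_mul]
    exact le_mul_of_one_le_left (exp_pos _).le (one_le_exp (abs_nonneg _))
  have hs1 : Summable fun k : ℤ =>
      (k : ℝ) * sin (2 * π * (k / N)) * exp (-((k : ℝ) ^ 2 / (2 * N))) := by
    refine (summable_aux hN 1).of_norm_bounded fun k => ?_
    rw [Real.norm_eq_abs, abs_mul, abs_mul, abs_of_pos (exp_pos _), pow_one]
    have h1 := abs_sin_le_one (2 * π * (k / N))
    have h2 : (1 : ℝ) ≤ exp |(k : ℝ)| := one_le_exp (abs_nonneg _)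
    gcongr
    exact h1.trans h2
  have hS := theta_pos hd3
  set Θ := ∑' k : ℤ, exp (-((k : ℝ) ^ 2 / (2 * N))) with hΘ
  set S := ∑' k : ℤ, (k : ℝ) * sin (2 * π * (k / N)) * exp (-((k : ℝ) ^ 2 / (2 * N))) with hSdef
  set R := ∑' k : ℤ, |(k : ℝ)| ^ 2 * exp |(k : ℝ)| * exp (-((k : ℝ) ^ 2 / (2 * N))) with hR
  have hΘ0 : 0 < Θ := hs0.tsum_pos (fun k => (exp_pos _).le) 0 (exp_pos _)
  obtain ⟨t, ht0, htδ, ht⟩ := exists_small (A := c * G * Θ) (B := c * K * S)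
    (C := 4 * π ^ 2 * ‖w‖ ^ 2 * N) (D := c * G * R) (δ := min δ 1) m (by positivity)
    (by positivity)
  refine ⟨t, ht0, htδ.trans_le (min_le_left _ _), ?_⟩
  have ht1 : |t| ≤ 1 := by
    rw [abs_of_pos ht0]
    exact (htδ.trans_le (min_le_right _ _)).le
  -- the flat boundary
  have hflat : ∫⁻ x in {x | ∃ k : ℤ, ⟪d, x⟫_ℝ = k},
      ENNReal.ofReal (c * exp (-‖x‖ ^ 2 / 2)) ∂μHE[m] = ENNReal.ofReal (c * G * Θ) := by
    have e0 : {x : V | ∃ k : ℤ, ⟪d, x⟫_ℝ = k} = ⋃ k : ℤ, range (sheet d w 0 k) := by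
      rw [← image_eq_iUnion 0 hd hdw]
      have : pert d w 0 = id := by
        funext x
        simp [pert]
      rw [this, image_id]
    have hk : ∀ (k : ℤ) (u : (ℝ ∙ d)ᗮ), ⟪d, sheet d w 0 k u⟫_ℝ = k := by
      intro k u
      rw [sheet, inner_add_right, inner_smul_right, inner_d, real_inner_self_eq_norm_sq]
      field_simp
      ring
    rw [e0, lintegral_iUnion]
    · have e1 : ∀ k : ℤ, ∫⁻ x in range (sheet d w 0 k),
          ENNReal.ofReal (c * exp (-‖x‖ ^ 2 / 2)) ∂μHE[m] =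
          ENNReal.ofReal (c * G * exp (-((k : ℝ) ^ 2 / (2 * N)))) := by
        intro k
        rw [lintegral_range_eq (isometry_sheet d w k) m hg, hvol]
        simp_rw [exp_sheet_zero w hd, ← mul_assoc]
        rw [← ofReal_integral_eq_lintegral_ofReal (hG1.const_mul _)
          (Filter.Eventually.of_forall fun u => by positivity), integral_const_mul]
        congr 1
        ring
      simp_rw [e1]
      rw [← ENNReal.ofReal_tsum_of_nonneg (fun k => by positivity) (hs0.mul_left _),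
        tsum_mul_left]
    · intro k
      exact (isometry_sheet d w k).isClosedEmbedding.isClosed_range.measurableSet
    · intro j k hjk
      rw [Function.onFun, Set.disjoint_left]
      rintro _ ⟨u, rfl⟩ ⟨v, hv⟩
      apply hjk
      have h1 := hk j u
      rw [← hv, hk k v] at h1
      exact_mod_cast h1.symm
  rw [hflat, image_eq_iUnion t hd hdw]
  set L : ℝ≥0 := ⟨1 + (4 * π ^ 2 * ‖w‖ ^ 2 * ‖d‖ ^ 2) * t ^ 2, by positivity⟩ with hL
  set a : ℤ → ℝ := fun k => c * G * exp (-((k : ℝ) ^ 2 / (2 * N))) -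
    t * (c * K * ((k : ℝ) * sin (2 * π * (k / N)) * exp (-((k : ℝ) ^ 2 / (2 * N))))) +
    t ^ 2 * (c * G * (|(k : ℝ)| ^ 2 * exp |(k : ℝ)| * exp (-((k : ℝ) ^ 2 / (2 * N))))) with ha
  have hasum : HasSum a (c * G * Θ - t * (c * K * S) + t ^ 2 * (c * G * R)) :=
    ((hs0.hasSum.mul_left _).sub ((hs1.hasSum.mul_left _).mul_left _)).add
      ((hs2.hasSum.mul_left _).mul_left _)
  have hkey : ∀ k : ℤ, 0 ≤ a k ∧ ∫⁻ u : (ℝ ∙ d)ᗮ,
      ENNReal.ofReal (c * exp (-‖sheet d w t k u‖ ^ 2 / 2)) ≤ ENNReal.ofReal (a k) := by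
    intro k
    set h : (ℝ ∙ d)ᗮ → ℝ := fun u => c * (exp (-((k : ℝ) ^ 2 / (2 * N))) *
      (exp (-‖u‖ ^ 2 / 2) - t * k * (sin (2 * π * (k / N + ⟪w, (u : V)⟫_ℝ)) *
        exp (-‖u‖ ^ 2 / 2)) + t ^ 2 * (|(k : ℝ)| ^ 2 * exp |(k : ℝ)|) * exp (-‖u‖ ^ 2 / 2)))
      with hh
    have hle : ∀ u, c * exp (-‖sheet d w t k u‖ ^ 2 / 2) ≤ h u := fun u =>
      mul_le_mul_of_nonneg_left (exp_sheet_le w hd ht1 k u) hc.le
    have hnn : ∀ u, 0 ≤ h u := fun u => le_trans (by positivity) (hle u)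
    have hi1 : Integrable fun u : (ℝ ∙ d)ᗮ => exp (-‖u‖ ^ 2 / 2) -
        t * k * (sin (2 * π * (k / N + ⟪w, (u : V)⟫_ℝ)) * exp (-‖u‖ ^ 2 / 2)) :=
      hG1.sub ((hKs (k / N)).1.const_mul (t * k))
    have hi2 := hG1.const_mul (t ^ 2 * (|(k : ℝ)| ^ 2 * exp |(k : ℝ)|))
    have hint : Integrable h := ((hi1.add hi2).const_mul _).const_mul _
    have hval : ∫ u, h u = a k := by
      rw [hh, integral_const_mul, integral_const_mul, integral_add hi1 hi2,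
        integral_sub hG1 ((hKs (k / N)).1.const_mul (t * k)), integral_const_mul,
        integral_const_mul, (hKs (k / N)).2, ha]
      ring
    refine ⟨hval ▸ integral_nonneg hnn, ?_⟩
    rw [← hval, ofReal_integral_eq_lintegral_ofReal hint (Filter.Eventually.of_forall hnn)]
    exact lintegral_mono fun u => ENNReal.ofReal_le_ofReal (hle u)
  calc ∫⁻ x in ⋃ k : ℤ, range (sheet d w t k), ENNReal.ofReal (c * exp (-‖x‖ ^ 2 / 2)) ∂μHE[m]
      ≤ ∑' k : ℤ, ∫⁻ x in range (sheet d w t k),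
          ENNReal.ofReal (c * exp (-‖x‖ ^ 2 / 2)) ∂μHE[m] := lintegral_iUnion_le _ _
    _ ≤ ∑' k : ℤ, (L : ℝ≥0∞) ^ m * ENNReal.ofReal (a k) := by
        refine ENNReal.tsum_le_tsum fun k => ?_
        refine (lintegral_range_le (lipschitz_sheet d w t k) m hg).trans ?_
        rw [hvol]
        exact mul_le_mul_right (hkey k).2 _
    _ = ENNReal.ofReal ((1 + (4 * π ^ 2 * ‖w‖ ^ 2 * N) * t ^ 2) ^ m *
          (c * G * Θ - t * (c * K * S) + t ^ 2 * (c * G * R))) := by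
        rw [ENNReal.tsum_mul_left, ← ENNReal.ofReal_tsum_of_nonneg (fun k => (hkey k).1)
          hasum.summable, hasum.tsum_eq, ENNReal.ofReal_mul (by positivity),
          ENNReal.ofReal_pow (by positivity), ← ENNReal.ofReal_coe_nnreal]
        rfl
    _ < ENNReal.ofReal (c * G * Θ) := (ENNReal.ofReal_lt_ofReal_iff (by positivity)).2 ht

end Pool.Agent.Lib.MP_b76267_pr
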